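import Mathlib
import Pool.Agent.H590.PL.Stm

/-!
P2V (planar case of MP_85210c_gt, helper590): the values at p = 2.
-/

set_option autoImplicit false

noncomputable section

open MeasureTheory Filter Topology Set
open scoped BigOperators ENNReal

namespace Pool.Agent.H94.PL

open H590PL

theorem lag {κ : Type} [Fintype κ] (v : κ → P2) (h : Nrm v) : ∑ i, ∑ j, dt (v i) (v j) ^ 2 = 2 := by
  obtain ⟨h1, h2, h3⟩ := h
  have e : ∀ i, ∑ j, dt (v i) (v j) ^ 2 = (v i).1 ^ 2 + (v i).2 ^ 2 := by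
    intro i
    have e1 : ∀ j, dt (v i) (v j) ^ 2 = (v i).1 ^ 2 * (v j).2 ^ 2 -
        (2 * ((v i).1 * (v i).2)) * ((v j).1 * (v j).2) + (v i).2 ^ 2 * (v j).1 ^ 2 := by
      intro j
      unfold dt
      ring
    rw [Finset.sum_congr rfl (fun j _ => e1 j), Finset.sum_add_distrib, Finset.sum_sub_distrib,
      ← Finset.mul_sum, ← Finset.mul_sum, ← Finset.mul_sum, h1, h2, h3]
    ring
  rw [Finset.sum_congr rfl (fun i _ => e i), Finset.sum_add_distrib, h1, h2]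
  norm_num

theorem Ph_two {κ : Type} [Fintype κ] (v : κ → P2) (h : Nrm v) (x : P2) :
    Ph 2 v one x = x.1 ^ 2 + x.2 ^ 2 := by
  obtain ⟨h1, h2, h3⟩ := h
  unfold Ph one
  have e : ∀ k, (1:ℝ) * |ip (v k) x| ^ (2:ℝ) = x.1 ^ 2 * (v k).1 ^ 2 +
      (2 * x.1 * x.2) * ((v k).1 * (v k).2) + x.2 ^ 2 * (v k).2 ^ 2 := by
    intro k
    rw [one_mul, Real.rpow_two, sq_abs]
    unfold ip
    ring
  rw [Finset.sum_congr rfl (fun k _ => e k), Finset.sum_add_distrib, Finset.sum_add_distrib,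
    ← Finset.mul_sum, ← Finset.mul_sum, ← Finset.mul_sum, h1, h2, h3]
  ring

theorem DD_two {κ : Type} [Fintype κ] (v : κ → P2) (h : Nrm v) (x : P2) : DD 2 v one x = 4 := by
  unfold DD one
  have e : ∀ i j, dt (v i) (v j) ^ 2 * ((2:ℝ) * 1 * |ip (v i) x| ^ ((2:ℝ) - 2)) *
      (2 * 1 * |ip (v j) x| ^ ((2:ℝ) - 2)) = 4 * dt (v i) (v j) ^ 2 := by
    intro i j
    rw [sub_self, Real.rpow_zero, Real.rpow_zero]
    ring
  rw [Finset.sum_congr rfl (fun i _ => Finset.sum_congr rfl (fun j _ => e i j))]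
  have e2 : ∑ i, ∑ j, 4 * dt (v i) (v j) ^ 2 = 4 * ∑ i, ∑ j, dt (v i) (v j) ^ 2 := by
    rw [Finset.mul_sum]
    exact Finset.sum_congr rfl (fun i _ => (Finset.mul_sum _ _ _).symm)
  rw [e2, lag v h]
  norm_num

theorem gauss : ∫ x : P2, Real.exp (-(x.1 ^ 2 + x.2 ^ 2)) = Real.pi := by
  have e : (fun x : P2 => Real.exp (-(x.1 ^ 2 + x.2 ^ 2))) =
      fun x : P2 => Real.exp (-1 * x.1 ^ 2) * Real.exp (-1 * x.2 ^ 2) := by
    funext x
    rw [← Real.exp_add]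
    apply congrArg
    ring
  rw [e]
  have h1 : ∫ x : P2, Real.exp (-1 * x.1 ^ 2) * Real.exp (-1 * x.2 ^ 2) =
      (∫ x : ℝ, Real.exp (-1 * x ^ 2)) * ∫ x : ℝ, Real.exp (-1 * x ^ 2) :=
    integral_prod_mul (μ := (volume : Measure ℝ)) (ν := (volume : Measure ℝ))
      (fun x : ℝ => Real.exp (-1 * x ^ 2)) (fun x : ℝ => Real.exp (-1 * x ^ 2))
  rw [h1, integral_gaussian, div_one, Real.mul_self_sqrt Real.pi_pos.le]

theorem P2V : S_P2V := by
  intro κ _ v h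
  constructor
  · unfold FF
    simp only [Ph_two v h]
    exact gauss
  · unfold AA
    simp only [Ph_two v h, DD_two v h]
    rw [integral_mul_const, gauss, mul_comm]

end Pool.Agent.H94.PL
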